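import Pool.Agent.K7.H34.FV.Nine

/-!
# Fillings of the circle of any topology: nine tenths of the filling area conjecture

`M` is a nonshortcutting filling of the circle `S^1` of length `2 π` (in the sense of the starting
files: a compact metric space with countably many Riemannian charts), of any genus, orientable or
not. Its area is at least `9 / 10` of the area `2 π` of the hemisphere.

Proof: to a point `q` of `M` corresponds the `1`-Lipschitz homogeneous function
`u_q(v) = |v| cos d(v/|v|, q)` on the plane. The vector field
`p ↦ E[(u_q(v) - ⟨p, v⟩) exp (⟨p, v⟩² / 2) v]` (`v` Gaussian) has at most one zero `F(q)` in the open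
unit disc, every point of the open disc is the zero of some `q` (parity), and for the hemisphere `F`
is the orthogonal projection to the plane of the equator. The Jacobian of `F` for the round area is
at most `|det N| / det (1 - S)` with a symmetric operator `S` of trace `0` and eigenvalues `± λ`.

(1) `λ ≤ |p| / (|p| + √2)`: two integrations by parts, in the directions `p` and `i p`, combined.

(2) `λ² ≤ tan² E[κ²]`, where `tan² = |p|² / (1 - |p|²)` and `κ` is the defect of `u_q`.

(3) `|det N| ≤ 1 - E[κ²] / 2` and
`(1 - λ²/16) |det N| ≤ 1 - 3 λ²/16 - (1 - λ/4)² E[κ²] / 2`: the second bound is obtained from the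
inequality of the means for `(1 + S/4) N` and uses that the defect has the third moment `S`.

So the Jacobian is at most `1` if `3 |p|² ≤ 1` and at most `30 / (31 - 6 |p|²)` for all other `p`;
integration gives `1 - 11 √6 / 270 > 9 / 10` hemispheres.
-/

set_option autoImplicit false

open MeasureTheory

namespace Pool.Agent.Results.MP_aeade1_gt.NineTenths

open Pool.Agent.H241R3.FV (Fill)

/-- Every nonshortcutting filling `M` of the circle `S^1` (compact, orientable or not, of any
topology: triangulated, or such that `M` does not retract onto its boundary) has area at least
`9 / 10` of the area `2 π` of the hemisphere. -/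
theorem result (M : Type) [MetricSpace M] [CompactSpace M] (S : Fill 1 M) (hS : S.NonShort)
    (htop : S.Triangulated ∨ S.NoRetraction) :
    ENNReal.ofReal (9 / 10 * (2 * Real.pi)) ≤ S.vol :=
  Pool.Agent.K7.H34.FV.nine_tenths S hS htop

end Pool.Agent.Results.MP_aeade1_gt.NineTenths
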