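import Pool.Agent.K7.H34.FV.CapFin

/-!
# Surgery inside a small cap does not decrease the volume of the round hemisphere

`M` is a nonshortcutting filling of `S^d` (in the sense of the starting files: a metric space with
Riemannian charts), of any topology, orientable or not. The part `N` of `M` replaces the geodesic
ball `C_r` of radius `r` about the pole of the hemisphere `H`; the rest of `M` is the collar
`H \ C_r`, or any other collar that is not longer and has at least the same volume.

Proof: a natural map (barycentre method) with values in the round cap. To a point `q` of `N`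
corresponds the function `u_q(v) = |v| cos d(v/|v|, q)` on `E n`, `n = d + 1`, where
`d(x, q) = inf_y (arccos (l ⟨x, y⟩) + d(q, b y))`, `l = sin r`. It is `1`-Lipschitz and homogeneous.
The vector field `p ↦ E[(u_q(v) - ⟨p, v⟩) exp (⟨p, v⟩² / 2) v]` (`v` Gaussian) has at most one zero
`F(q)` in the open unit ball, because `(1 - |p|²) ⟨Γ(p), b⟩` is strictly decreasing along segments
of direction `b`. For points of the cap `F` is the orthogonal projection to the plane of the
equator. The differential of `Γ` is `-p₀⁻¹ B (1 - S) B`, `B = (1 - p pᵀ)^(-1/2)`, with `S` symmetric,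
of trace `0` and eigenvalues at most `|p| / (1 + |p|)`; the Hilbert-Schmidt norm of `S` is bounded
by the variance `E[κ²]` of the defect `κ`, and `E[κ²]` is exactly what is lost in the other factor
of the Jacobian of `F`. The Jacobian (for the round volume) is at most `1` if `|p| ≤ sin r`.
-/

set_option autoImplicit false

open MeasureTheory Metric Set InnerProductGeometry

namespace Pool.Agent.Results.MP_aeade1_gt.SmallCap

open Pool.Agent.H241R3.FV (Sph RChart Fill Triang E)

/-- The radii `r` that are allowed: `tan² r ≤ (d + 5) / (8 (d + 1))`, that is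
`sin² r ≤ (d + 5) / (9 d + 13)`; for `d = 1` also `sin² r ≤ 1 / 3`. -/
def SmallRadius (d : ℕ) (r : ℝ) : Prop :=
  0 < r ∧ r < Real.pi / 2 ∧
    ((9 * d + 13) * Real.sin r ^ 2 ≤ d + 5 ∨ (d = 1 ∧ 3 * Real.sin r ^ 2 ≤ 1))

/-- `N`, with boundary `b`, is triangulated (it has arbitrarily fine triangulations), or there is no
retraction of `N` to its boundary. -/
def Manifold {d : ℕ} {N : Type} [MetricSpace N] (b : Sph (d + 1) → N) : Prop :=
  (∀ ε : ℝ, 0 < ε → Nonempty (Triang b ε)) ∨
    ¬ ∃ ret : N → Sph (d + 1), Continuous ret ∧ ∀ x, ret (b x) = x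

/-- `N` is covered by its boundary and by the parts `D` of the charts with index in `J`. -/
def Covered {d : ℕ} {M : Type} [MetricSpace M] (S : Fill d M) {N : Set M}
    (b : Sph (d + 1) → N) (J : Set S.ι) : Prop :=
  ∀ q : N, (∃ x, b x = q) ∨ ∃ i ∈ J, ∃ c ∈ (S.chart i).D, (S.chart i).map c = q

/-- A point `x` of the boundary of `M` and a point `b y` with `⟨x, y⟩ ≥ 0` are at most at the
distance `arccos (sin r ⟨x, y⟩)` that they have in `H \ C_r`, where `b y` is the point of `∂C_r`
above `sin r • y`. -/
def CollarShort {d : ℕ} {M : Type} [MetricSpace M] (S : Fill d M) {N : Set M}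
    (b : Sph (d + 1) → N) (r : ℝ) : Prop :=
  ∀ x y : Sph (d + 1), 0 ≤ (inner ℝ (x : E (d + 1)) (y : E (d + 1)) : ℝ) →
    dist (S.bd x) (b y : M) ≤
      Real.arccos (Real.sin r * inner ℝ (x : E (d + 1)) (y : E (d + 1)))

/-- The charts with index not in `J` have at least the volume
`(d + 1) vol (B^(d+1)) ∫_r^(π/2) sin^d` of the round collar `H \ C_r`. -/
def CollarLarge {d : ℕ} {M : Type} [MetricSpace M] (S : Fill d M) (J : Set S.ι) (r : ℝ) : Prop :=
  ENNReal.ofReal ((d + 1) * (volume : Measure (E (d + 1))).real (ball 0 1) *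
      ∫ t in r..(Real.pi / 2), Real.sin t ^ d) ≤
    ∑' i : ↥Jᶜ, ∫⁻ c in (S.chart i).D, ENNReal.ofReal √((S.chart i).G c).det

/-- Let `M` be a nonshortcutting filling of `S^d`, `N` a compact subset of `M` with boundary
`b : S^d → N`, covered by `b` and the charts with index in `J`. If the rest of `M` is like the round
collar `H \ C_r` (not longer, and with at least the same volume), and if `r` is small in the sense
above, then the volume of `M` is at least the volume of the hemisphere. -/
theorem result (d : ℕ) (hd : 1 ≤ d) (M : Type) [MetricSpace M] (S : Fill d M) (hS : S.NonShort)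
    (r : ℝ) (hr : SmallRadius d r) (N : Set M) [CompactSpace N] (b : Sph (d + 1) → N)
    (hT : Manifold b) (J : Set S.ι) (hcov : Covered S b J) (hcol : CollarShort S b r)
    (hvol : CollarLarge S J r) :
    (volume : Measure (E (d + 2))).toSphere univ / 2 ≤ S.vol := by
  obtain ⟨hr0, hr1, hrs⟩ := hr
  have hl0 : 0 ≤ Real.sin r := (Real.sin_pos_of_pos_of_lt_pi hr0 (by linarith [Real.pi_pos])).le
  have hb := Pool.Agent.K7.H34.FV.capd_le S.bd (fun x => (b x : M)) hS hl0 (Real.sin_le_one r) hcol
  have := S.countable
  have h1 := Pool.Agent.K7.H34.FV.cap_main hd hr0 hr1 hrs b hT hb (fun i : J => S.chart i)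
    (fun q => by
      rcases hcov q with h | ⟨i, hi, h⟩
      · exact Or.inl h
      · exact Or.inr ⟨⟨i, hi⟩, h⟩)
  have h2 : S.vol = (∑' i : ↥J, ∫⁻ c in (S.chart i).D, ENNReal.ofReal √((S.chart i).G c).det) +
      ∑' i : ↥Jᶜ, ∫⁻ c in (S.chart i).D, ENNReal.ofReal √((S.chart i).G c).det :=
    (ENNReal.summable.tsum_add_tsum_compl ENNReal.summable).symm
  rw [Pool.Agent.K7.H34.FV.sphere_total, h2]
  refine le_trans ?_ (add_le_add h1 hvol)
  have hi : ∀ a c : ℝ, IntervalIntegrable (fun t => Real.sin t ^ d) volume a c := fun a c =>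
    (by fun_prop : Continuous fun t : ℝ => Real.sin t ^ d).intervalIntegrable _ _
  have hom : 0 ≤ Pool.Agent.H241R3.FV.om (d + 1) := measureReal_nonneg
  rw [← ENNReal.ofReal_add]
  · refine ENNReal.ofReal_le_ofReal (le_of_eq ?_)
    rw [← intervalIntegral.integral_add_adjacent_intervals (hi 0 r) (hi r (Real.pi / 2))]
    unfold Pool.Agent.H241R3.FV.om
    push_cast
    ring
  · refine mul_nonneg (mul_nonneg (Nat.cast_nonneg _) hom) ?_
    refine intervalIntegral.integral_nonneg hr0.le fun t ht => ?_
    exact pow_nonneg (Real.sin_nonneg_of_nonneg_of_le_pi ht.1 (by linarith [ht.2, Real.pi_pos])) _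
  · refine mul_nonneg (mul_nonneg (by positivity) hom) ?_
    refine intervalIntegral.integral_nonneg hr1.le fun t ht => ?_
    exact pow_nonneg (Real.sin_nonneg_of_nonneg_of_le_pi (hr0.le.trans ht.1)
      (by linarith [ht.2, Real.pi_pos])) _

end Pool.Agent.Results.MP_aeade1_gt.SmallCap
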