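import Pool.Agent.K7.H34.FV.JThree

/-!
# Fillings of the two-sphere of any topology: three quarters of the hemisphere

`M` is a nonshortcutting filling of the round sphere `S^2` (in the sense of the starting files: a
compact metric space with countably many Riemannian charts of dimension three), of any topology,
orientable or not. Its volume is at least `3 / 4` of the volume `π²` of the hemisphere of `S^3`.

Proof: the natural map `F` of `SmallCap`, `NineTenths` (barycentre method) is defined on the part of
`M` where the vector field `p ↦ E[(u_q(v) - ⟨p, v⟩) exp (⟨p, v⟩² / 2) v]` has a zero in the open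
unit ball, covers the open ball, and its Jacobian for the round volume is at most
`(1 - E[κ²] / 3)^(3/2) / det (1 - S)`, `S` symmetric of trace zero. With `r = |p|` the eigenvalues
of `S` are at most `(r / (1 + r) + t² r) / (1 + t)` and at least
`- 2 B r / (1 + r) - (1 - B)² r / (2 B)` for all `t, B > 0` (integration by parts with the vector
fields `⟨g, e⟩² η + t ⟨g, e⟩ m` and `B (|g|² - ⟨g, e⟩²) η - (1 - B) ⟨g, e⟩ m`,
`m = ⟨g, η⟩ e - ⟨e, η⟩ g`), and `7 |S|² ≤ 18 tan² E[κ²]`. With `t = 1/4`, `B = 4/7` this gives the
bound `1 / (1 - |p|² / 3)` for the Jacobian at all points, and integration gives `3 / 4`.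
-/

set_option autoImplicit false

open MeasureTheory

namespace Pool.Agent.Results.MP_aeade1_gt.ThreeQuarters

open Pool.Agent.H241R3.FV (Fill)

/-- Every nonshortcutting filling `M` of the round sphere `S^2` (compact, orientable or not, of any
topology: triangulated, or such that `M` does not retract onto its boundary) has volume at least
`3 / 4` of the volume `π²` of the hemisphere of dimension three. -/
theorem result (M : Type) [MetricSpace M] [CompactSpace M] (S : Fill 2 M) (hS : S.NonShort)
    (htop : S.Triangulated ∨ S.NoRetraction) :
    ENNReal.ofReal (3 / 4 * Real.pi ^ 2) ≤ S.vol :=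
  Pool.Agent.K7.H34.FV.three_quarters S hS htop

end Pool.Agent.Results.MP_aeade1_gt.ThreeQuarters
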