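import Pool.Agent.K7.H37.FV.Fin

/-!
# Fillings of round spheres of dimension three to ten, of any topology

`M` is a nonshortcutting filling of the round sphere `S^d` (in the sense of the starting files: a
compact metric space with countably many Riemannian charts of dimension `n = d + 1`), of any
topology, orientable or not, and `3 ≤ d ≤ 10`. Its volume is at least `cst d` times the volume of
the hemisphere, where `cst d = 0.71, 0.65, 0.6, 0.56, 0.53, 0.5, 0.48, 0.46`.

Proof: the natural map of `ThreeQuarters` (barycentre method) is applied to the functions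
`μ u_q` with `0 < μ < 1` instead of `u_q`. The vector field
`p ↦ E[(μ u_q(v) - ⟨p, v⟩) exp (⟨p, v⟩² / 2) v]` has zeros covering the ball of radius `μ`; with
`|p| = μ r`, `λ = μ²` the Jacobian of `q ↦ p / μ` for the Lebesgue measure is at most
`(1 - λ r²)^(1/2) (1 - (A + K) / n)^(n/2) / det (1 - S)`, `A = (1 - λ) r² / (1 - λ r²)`, `S`
symmetric of trace zero, `(n + 4) (1 - λ r²) |S|² ≤ 6 n λ² r² K`. The eigenvalues of `S` are at most
`λ r (x + (n - 1) t² / 2) / (1 + t)` and at least `- λ r ((n - 1) B x + (1 - B)² / (2 B))` for all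
`t ≥ 0`, `B > 0`, where `x = (1 - r) / (1 - λ r²)`; now they tend to zero as `r → 1`. For `x` in
`[-b, s]` the function `- log (1 - x) - θ x²` is convex if `2 θ (1 + b)² ≤ 1`, so that
`∑ (- log (1 - x_i) - θ x_i²)` is maximal at the vertex `(s, …, s, b - (n - 2) s, - b)`. This gives
a bound for the Jacobian on each of 99 to 385 shells `a ≤ r ≤ c`, and the sum over the shells is
the constant. The data of the shells are rational numbers and the inequalities are decided by the
kernel.
-/

set_option autoImplicit false

open MeasureTheory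

namespace Pool.Agent.Results.MP_aeade1_gt.ThreeToTen

open Pool.Agent.H241R3.FV (Fill)

/-- the constants for `d = 3, …, 10` -/
noncomputable def cst : ℕ → ℝ
  | 3 => 71 / 100
  | 4 => 13 / 20
  | 5 => 3 / 5
  | 6 => 14 / 25
  | 7 => 53 / 100
  | 8 => 1 / 2
  | 9 => 12 / 25
  | 10 => 23 / 50
  | _ => 0

/-- For `3 ≤ d ≤ 10` every nonshortcutting filling `M` of the round sphere `S^d` (compact,
orientable or not, of any topology: triangulated, or such that `M` does not retract onto its
boundary) has volume at least `cst d` times the volume `vol(S^(d+1)) / 2` of the hemisphere. -/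
theorem result (d : ℕ) (h3 : 3 ≤ d) (h10 : d ≤ 10) (M : Type) [MetricSpace M] [CompactSpace M]
    (S : Fill d M) (hS : S.NonShort) (htop : S.Triangulated ∨ S.NoRetraction) :
    ENNReal.ofReal (cst d) *
      ((volume : Measure (EuclideanSpace ℝ (Fin (d + 2)))).toSphere Set.univ / 2) ≤ S.vol := by
  interval_cases d
  · exact Pool.Agent.K7.H37.FV.d3 S hS htop
  · exact Pool.Agent.K7.H37.FV.d4 S hS htop
  · exact Pool.Agent.K7.H37.FV.d5 S hS htop
  · exact Pool.Agent.K7.H37.FV.d6 S hS htop
  · exact Pool.Agent.K7.H37.FV.d7 S hS htop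
  · exact Pool.Agent.K7.H37.FV.d8 S hS htop
  · exact Pool.Agent.K7.H37.FV.d9 S hS htop
  · exact Pool.Agent.K7.H37.FV.d10 S hS htop

end Pool.Agent.Results.MP_aeade1_gt.ThreeToTen
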